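import Pool.Agent.helper37.NA.Spec

/-!
# Row na:NTI: the claim for the type `N`
-/

set_option autoImplicit false

namespace Pool.Agent.NAB

open Pool.Agent.helper58.DC Pool.Agent.DI Pool.Agent.GR Pool.Agent.OB Pool.Agent.DR Pool.Agent.FI Pool.Agent.FI3 Pool.Agent.FI4 Pool.Agent.FI4I Pool.Agent.LE Pool.Agent.L5

theorem NTI_van {G : Type} [Group G] {N H : Subgroup G} (hH : H ≤ N) {ψ : G → ℂ} (hψ : ψ ∈ IrrOn H) :
    ∀ x, x ∉ N → ψ x = 0 := fun x hx => hψ.1 x (fun h => hx (hH h))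

theorem NTI (hNEG : NEG_stmt) (hNTK : NTK_stmt) (hTR1 : TR1_stmt) (hTR2 : TR2_stmt) (hTR3 : TR3_stmt)
    (hTR4 : TR4_stmt) (hTRE : Pool.Agent.L5.TRE_stmt) (hTPR : Pool.Agent.FI.TPR_stmt) (hB2 : B2_stmt) : NTI_stmt := by
  intro p e m M hM G _ _ N hMN φ hφ z x hU
  have hφN : ∀ y, y ∉ N → φ y = 0 := NTI_van le_rfl hφ
  have hE : Eg p e z ≤ N := (hNEG p e hM.pr G z).2.1 N hU.zm
  have htop : N.subgroupOf N = ⊤ := Subgroup.subgroupOf_self N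
  have hK : N ⊓ nz (Eg p e z) ≤ N := inf_le_left
  obtain ⟨a1, a2, a3⟩ := hTR1 G N (N ⊓ nz (Eg p e z)) hK
  have hχ : rN N φ ∈ Irr N := by
    have h := ((hTR1 G N N le_rfl).1 φ hφN).1 hφ
    rw [htop, (hTPR p M hM N).1] at h
    exact h
  have hU' : Ucl p e m M (⊤ : Subgroup N) (rN N φ) ⟨z, hU.zm⟩ ⟨x, hU.xm⟩ := by
    have h := (hNTK p e m M G N N le_rfl φ hφN ⟨z, hU.zm⟩ ⟨x, hU.xm⟩).2 hU
    rwa [htop] at h
  have hEg : ∀ y : N, Eg p e y = (Eg p e (y : G)).subgroupOf N := fun y =>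
    ((hNEG p e hM.pr G z).2.2.2.2.2.2 N y).symm
  have hnz : nz (Eg p e (⟨z, hU.zm⟩ : N)) = (N ⊓ nz (Eg p e z)).subgroupOf N := by
    rw [hEg, ((hTR3 p G N).1 (Eg p e z) hE).2, Subgroup.inf_subgroupOf_left]
  have hL := hTRE p M hM G N N le_rfl φ hφN
  rw [htop] at hL
  rw [← hL, hMN _ hχ _ _ hU', hnz, hEg]
  unfold lE
  symm
  refine finsum_mem_eq_of_bijOn (rN N) ⟨?_, ?_, ?_⟩ ?_
  · rintro η ⟨hη, hs, z1, x1, h1, h2⟩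
    refine ⟨(a1 η (NTI_van hK hη)).1 hη, ?_, ⟨z1, hK h1.zm⟩, ⟨x1, hK h1.xm⟩, ?_, ?_⟩
    · have h := ((hTR2 G M N).2.1 N le_rfl η φ (NTI_van hK hη) hφN).1 hs
      rwa [htop] at h
    · exact (hNTK p e m M G N _ hK η (NTI_van hK hη) ⟨z1, hK h1.zm⟩ ⟨x1, hK h1.xm⟩).2 h1
    · rw [hEg, h2]
  · rintro η ⟨hη, -⟩ η' ⟨hη', -⟩ he
    exact a3 η η' (NTI_van hK hη) (NTI_van hK hη') he
  · rintro η' ⟨hη', hs, z1, x1, h1, h2⟩
    obtain ⟨η, hη, rfl⟩ := a2 η' hη'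
    refine ⟨η, ⟨hη, ?_, (z1 : G), (x1 : G), ?_, ?_⟩, rfl⟩
    · refine ((hTR2 G M N).2.1 N le_rfl η φ (NTI_van hK hη) hφN).2 ?_
      rwa [htop]
    · exact (hNTK p e m M G N _ hK η (NTI_van hK hη) z1 x1).1 h1
    · rw [hEg z1] at h2
      have h3 : Eg p e (z1 : G) ≤ N := (hNEG p e hM.pr G (z1 : G)).2.1 N z1.2
      have h4 := Subgroup.subgroupOf_inj.1 h2
      rwa [inf_eq_left.2 h3, inf_eq_left.2 hE] at h4
  · rintro η ⟨hη, -⟩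
    exact ((hTR4 p G N _ hK η η).1).symm

end Pool.Agent.NAB
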