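import Pool.Agent.helper37.NA.Spec

/-!
# Row na:NTK: transfer of unit classes to the type `N`
-/

set_option autoImplicit false

namespace Pool.Agent.NAB

open Pool.Agent.helper58.DC Pool.Agent.DI Pool.Agent.GR Pool.Agent.OB Pool.Agent.DR Pool.Agent.FI Pool.Agent.FI3 Pool.Agent.FI4 Pool.Agent.FI4I Pool.Agent.LE Pool.Agent.L5

theorem NTK (hNEG : NEG_stmt) (hTR2 : TR2_stmt) (hTR3 : TR3_stmt) : NTK_stmt := by
  intro p e m M G _ _ N H hHN η hη z x
  obtain ⟨h21, -, h23⟩ := hTR2 G M N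
  obtain ⟨-, -, h33, h34, -⟩ := hTR3 p G N
  have hcc : cc (rN N η) (cls (H.subgroupOf N) (z * x)) = cc η (cls H ((z : G) * (x : G))) := by
    rw [← (h23.1 H hHN (z * x)), h21 _ _ hη, Subgroup.coe_mul]
  have hpp : pp p (Cz (H.subgroupOf N) (z * x)) = pp p (Cz H ((z : G) * (x : G))) := by
    rw [(h33 H hHN (z * x)).2, Subgroup.coe_mul]
  have hco : z * x = x * z ↔ (z : G) * (x : G) = (x : G) * (z : G) := by
    rw [Subtype.ext_iff, Subgroup.coe_mul, Subgroup.coe_mul]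
  constructor
  · intro h
    refine ⟨((h34 z).2).1 h.pe, ((h34 x).1).1 h.re, hco.1 h.co, Subgroup.mem_subgroupOf.1 h.zm,
      Subgroup.mem_subgroupOf.1 h.xm, ?_, ?_, ?_⟩
    · rw [Subgroup.orderOf_coe]
      exact h.od
    · rw [← hcc]
      exact h.ne
    · rw [← hpp]
      exact h.cd
  · intro h
    refine ⟨((h34 z).2).2 h.pe, ((h34 x).1).2 h.re, hco.2 h.co, Subgroup.mem_subgroupOf.2 h.zm,
      Subgroup.mem_subgroupOf.2 h.xm, ?_, ?_, ?_⟩
    · rw [← Subgroup.orderOf_coe]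
      exact h.od
    · rw [hcc]
      exact h.ne
    · rw [hpp]
      exact h.cd

end Pool.Agent.NAB
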