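import Pool.Agent.helper37.NA.Spec

/-!
# Row na:NKB: blocks of the quotient and of the group
-/

set_option autoImplicit false

namespace Pool.Agent.NAB

open Pool.Agent.helper58.DC Pool.Agent.DI Pool.Agent.GR Pool.Agent.OB Pool.Agent.DR Pool.Agent.FI Pool.Agent.FI3 Pool.Agent.FI4 Pool.Agent.FI4I Pool.Agent.LE Pool.Agent.L5

theorem NKB_ex (hFMX3 : FMX3_stmt) (hC7 : C7_stmt) (hC8 : C8_stmt) (p : ℕ) (M : Ideal (integralClosure ℤ ℂ))
    (hS : Setup p M) (Gb : Type) [Group Gb] [Finite Gb] (R' : Subgroup Gb) (hR' : nz R' = ⊤)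
    (Cb : Finset (Subgroup Gb)) (hCb : NCh p ⊤ R' Cb) (f : Gb → ℂ) (hf : f ∈ IrrOn (nrm Cb)) :
    ∃ χ' ∈ Irr Gb, Induces M f χ' := by
  have : Fact p.Prime := ⟨hS.pr⟩
  by_cases hC : Cb = {R'}
  · have h1 : nrm Cb = ⊤ := by
      rw [hC]
      unfold nrm
      rw [eq_top_iff]
      refine le_iInf₂ fun Q hQ => ?_
      rw [Finset.mem_singleton] at hQ
      rw [hQ]
      exact hR'.ge
    refine hC8 Gb p M hS.max hS.mem f (hC7 Gb p M hS.max hS.mem ⊥ (nrm Cb) bot_le ?_ ?_ ?_ f hf)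
    · intro x _
      rw [Subgroup.mem_normalizer_iff]
      intro h
      simp
    · rw [h1]
      exact le_top
    · exact IsPGroup.of_bot
  · obtain ⟨P, -, -, hpg, -, -, hPn, hnP, hcz⟩ := hFMX3 Gb p ⊤ R' Cb hCb hC
    exact hC8 Gb p M hS.max hS.mem f (hC7 Gb p M hS.max hS.mem P (nrm Cb) hPn hnP hcz hpg f hf)

theorem NKB (hKBL : KBL_stmt) (hFMX3 : FMX3_stmt) (hC7 : C7_stmt) (hC8 : C8_stmt) (hIM : IM_stmt) : NKB_stmt := by
  intro p M hS G Gb _ _ _ _ R₁ π hq R' hR' χ Cb hCb f hf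
  have hfwd := (hKBL p M hS G Gb R₁ π hq).1
  constructor
  · intro h
    obtain ⟨χ', hχ', hInd⟩ := NKB_ex hFMX3 hC7 hC8 p M hS Gb R' hR' Cb hCb f hf
    have h1 := hfwd f χ' hInd
    have h2 := (hIM G M (fun g => f (π g)) (fun g => χ' (π g)) χ).2.1 h1
    exact ⟨χ', ⟨hχ', (hIM G M (fun g => χ' (π g)) (fun g => f (π g)) χ).2.2.1 h2 h⟩, hInd⟩
  · rintro ⟨χ', ⟨hχ', h1⟩, h2⟩
    have h3 := hfwd f χ' h2
    exact (hIM G M (fun g => f (π g)) (fun g => χ' (π g)) χ).2.2.1 h3 h1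

end Pool.Agent.NAB
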